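import Pool.Agent.W270.Szp.Pair

open Finset Nat

namespace Pool.Agent.R417.MV

open Pool.Agent.H390R2 (rad IsABCTriple)
open Pool.Agent.W270.Szp

section
variable {m : ℕ}

/-- the product of the positive part -/
def Ap (t : {p // p ∈ primesLE m} → ℤ) : ℕ := PP (fun p => (t p).toNat)
/-- the product of the negative part -/
def An (t : {p // p ∈ primesLE m} → ℤ) : ℕ := PP (fun p => (-t p).toNat)

lemma Ap_pos (t : {p // p ∈ primesLE m} → ℤ) : 0 < Ap t := PP_pos _
lemma An_pos (t : {p // p ∈ primesLE m} → ℤ) : 0 < An t := PP_pos _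

lemma PP_mul (a b : {p // p ∈ primesLE m} → ℕ) : PP a * PP b = PP (fun p => a p + b p) := by
  unfold PP
  rw [← Finset.prod_mul_distrib]
  exact Finset.prod_congr rfl fun p _ => (pow_add _ _ _).symm

lemma eq_of_ratio {t t' : {p // p ∈ primesLE m} → ℤ} (h : Ap t * An t' = Ap t' * An t) : t = t' := by
  unfold Ap An at h
  rw [PP_mul, PP_mul] at h
  have h1 := PP_inj _ _ h
  funext p
  have h2 := congrFun h1 p
  omega

lemma neg_of_ratio {t t' : {p // p ∈ primesLE m} → ℤ} (h : Ap t * Ap t' = An t * An t') :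
    t = -t' := by
  unfold Ap An at h
  rw [PP_mul, PP_mul] at h
  have h1 := PP_inj _ _ h
  funext p
  have h2 := congrFun h1 p
  rw [Pi.neg_apply]
  omega

/-- two vectors with the same ratio `c / b` are equal up to sign -/
lemma fibre {t t' : {p // p ∈ primesLE m} → ℤ} {b c : ℕ} (hb : 0 < b) (hc : 0 < c)
    (h : c * An t = b * Ap t ∨ c * Ap t = b * An t)
    (h' : c * An t' = b * Ap t' ∨ c * Ap t' = b * An t') : t' = t ∨ t' = -t := by
  have e : ∀ x y : ℕ, b * c * x = b * c * y → x = y := fun x y h =>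
    Nat.eq_of_mul_eq_mul_left (Nat.mul_pos hb hc) h
  rcases h with h | h <;> rcases h' with h' | h'
  · left
    apply eq_of_ratio
    apply e
    calc b * c * (Ap t' * An t) = (b * Ap t') * (c * An t) := by ring
      _ = (c * An t') * (b * Ap t) := by rw [h', h]
      _ = b * c * (Ap t * An t') := by ring
  · right
    apply neg_of_ratio
    apply e
    calc b * c * (Ap t' * Ap t) = (c * Ap t') * (b * Ap t) := by ring
      _ = (b * An t') * (c * An t) := by rw [h', h]
      _ = b * c * (An t' * An t) := by ring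
  · right
    apply neg_of_ratio
    apply e
    calc b * c * (Ap t' * Ap t) = (b * Ap t') * (c * Ap t) := by ring
      _ = (c * An t') * (b * An t) := by rw [h', h]
      _ = b * c * (An t' * An t) := by ring
  · left
    apply eq_of_ratio
    apply e
    calc b * c * (Ap t' * An t) = (c * Ap t') * (b * An t) := by ring
      _ = (b * An t') * (c * Ap t) := by rw [h', h]
      _ = b * c * (Ap t * An t') := by ring

/-- the functional whose kernel modulo `φ(q ^ k) M` gives the good vectors -/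
lemma exists_W {q k M : ℕ} (R : ℝ) (hm : 7 ≤ m) (hq : q.Prime) (hqm : m < q)
    (hM : Nat.Coprime (φ (q ^ k)) M) :
    ∃ W : {p // p ∈ primesLE m} → ℤ, ∀ t : {p // p ∈ primesLE m} → ℤ,
      ((φ (q ^ k) * M : ℕ) : ℤ) ∣ ∑ i, W i * t i →
      ((q ^ k : ℕ) : ℤ) ∣ (Ap t : ℤ) - An t ∧
      (M : ℤ) ∣ ∑ i : {p // p ∈ primesLE m}, ⌊R * Real.log (gg i)⌋ * t i := by
  obtain ⟨d, hd⟩ := exists_dlog (k := k) hm hq hqm
  have hcop : IsCoprime ((φ (q ^ k) : ℕ) : ℤ) (M : ℤ) := Nat.isCoprime_iff_coprime.mpr hM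
  obtain ⟨u, v, huv⟩ := hcop
  set f : {p // p ∈ primesLE m} → ℤ := fun p => ⌊R * Real.log (gg p)⌋ with hf
  refine ⟨fun p => d p * (v * M) + f p * (u * (φ (q ^ k) : ℕ)), fun t htdvd => ⟨?_, ?_⟩⟩
  · have hd1 : ((φ (q ^ k) : ℕ) : ℤ) ∣ ∑ i, d i * t i := by
      have h1 : ((φ (q ^ k) : ℕ) : ℤ) ∣ ∑ i, (d i * (v * M) + f i * (u * (φ (q ^ k) : ℕ))) * t i := by
        refine dvd_trans ?_ htdvd
        push_cast
        exact Dvd.intro _ rfl
      have h2 : ∑ i, d i * t i = ∑ i, (d i * (v * M) + f i * (u * (φ (q ^ k) : ℕ))) * t i +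
          (φ (q ^ k) : ℕ) * (u * ∑ i, (d i - f i) * t i) := by
        rw [Finset.mul_sum, Finset.mul_sum, ← Finset.sum_add_distrib]
        refine Finset.sum_congr rfl fun i _ => ?_
        linear_combination (-(d i * t i)) * huv
      rw [h2]
      exact dvd_add h1 (Dvd.intro _ rfl)
    exact hd t hd1
  · have h1 : (M : ℤ) ∣ ∑ i, (d i * (v * M) + f i * (u * (φ (q ^ k) : ℕ))) * t i := by
      refine dvd_trans ?_ htdvd
      push_cast
      exact Dvd.intro_left _ rfl
    have h2 : ∑ i, f i * t i = ∑ i, (d i * (v * M) + f i * (u * (φ (q ^ k) : ℕ))) * t i +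
        M * (v * ∑ i, (f i - d i) * t i) := by
      rw [Finset.mul_sum, Finset.mul_sum, ← Finset.sum_add_distrib]
      refine Finset.sum_congr rfl fun i _ => ?_
      linear_combination (-(f i * t i)) * huv
    rw [h2]
    exact dvd_add h1 (Dvd.intro _ rfl)

/-- From one short vector to an abc-triple with `q ^ k ∣ a`. -/
theorem triple_of {q k M : ℕ} {lam : ℝ} (hm : 7 ≤ m) (hq : q.Prime) (hqm : m < q)
    (hlam : 0 < lam)
    (hMbig : lam * (lam + 1) ≤ M * Real.log 2)
    (t : {p // p ∈ primesLE m} → ℤ) (ht0 : t ≠ 0)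
    (hABd : ((q ^ k : ℕ) : ℤ) ∣ (Ap t : ℤ) - An t)
    (hd2 : (M : ℤ) ∣ ∑ i : {p // p ∈ primesLE m}, ⌊(M : ℝ) / (lam + 1) * Real.log (gg i)⌋ * t i)
    (hsum : ∑ i : {p // p ∈ primesLE m}, |(t i : ℝ)| * Real.log (gg i) ≤ lam) :
    ∃ a b c : ℕ, IsABCTriple a b c ∧ 16 ∣ a * b * c ∧ q ^ k ∣ a ∧
      Real.log c ≤ (lam + 1) / 2 ∧ Real.log c - 1 ≤ Real.log b ∧
      b.primeFactors ⊆ primesLE m ∧ c.primeFactors ⊆ primesLE m ∧
      (c * An t = b * Ap t ∨ c * Ap t = b * An t) := by
  have hl2 : (0 : ℝ) < Real.log 2 := Real.log_pos one_lt_two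
  have hM0 : (0 : ℝ) < M := by
    by_contra h
    push Not at h
    have h1 : 0 < lam * (lam + 1) := by positivity
    nlinarith
  set R : ℝ := M / (lam + 1) with hR
  have hR0 : 0 < R := by positivity
  set f : {p // p ∈ primesLE m} → ℤ := fun p => ⌊R * Real.log (gg p)⌋ with hf
  -- real closeness
  have hlogp : ∀ p : {p // p ∈ primesLE m}, Real.log 2 ≤ Real.log (gg p) := fun p =>
    Real.log_le_log two_pos (by
      exact_mod_cast (two_le_of_mem_primesLE p.2).trans (gg_ge p))
  have hW : ∀ p : {p // p ∈ primesLE m},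
      |((f p : ℤ) : ℝ)| ≤ R * Real.log (gg p) := by
    intro p
    have h0 : 0 ≤ R * Real.log (gg p) := by
      have := hlogp p
      have h1 : 0 ≤ Real.log (gg p) := by linarith
      positivity
    rw [abs_of_nonneg (by exact_mod_cast Int.floor_nonneg.mpr h0)]
    exact Int.floor_le _
  have habs : |((∑ i : {p // p ∈ primesLE m}, f i * t i : ℤ) : ℝ)| < M := by
    push_cast
    calc |∑ i : {p // p ∈ primesLE m}, (f i : ℝ) * (t i : ℝ)|
        ≤ ∑ i : {p // p ∈ primesLE m}, |(f i : ℝ) * (t i : ℝ)| :=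
          Finset.abs_sum_le_sum_abs _ _
      _ ≤ ∑ i : {p // p ∈ primesLE m}, R * (|(t i : ℝ)| * Real.log (gg i)) := by
          refine Finset.sum_le_sum fun i _ => ?_
          rw [abs_mul]
          have := mul_le_mul_of_nonneg_right (hW i) (abs_nonneg (t i : ℝ))
          linarith
      _ = R * ∑ i : {p // p ∈ primesLE m}, |(t i : ℝ)| * Real.log (gg i) := by
          rw [Finset.mul_sum]
      _ ≤ R * lam := mul_le_mul_of_nonneg_left hsum hR0.le
      _ < R * (lam + 1) := by nlinarith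
      _ = M := by rw [hR]; field_simp
  have hzero : (∑ i : {p // p ∈ primesLE m}, f i * t i : ℤ) = 0 := by
    refine Int.eq_zero_of_abs_lt_dvd hd2 ?_
    exact_mod_cast habs
  set l : ℝ := ∑ p : {p // p ∈ primesLE m}, (t p : ℝ) * Real.log (gg p) with hl
  have hRl : R * |l| ≤ lam / Real.log 2 := by
    have h1 : R * l = ∑ p : {p // p ∈ primesLE m},
        (R * Real.log (gg p) - (f p : ℤ)) * (t p : ℝ) := by
      have h2 : ∑ p : {p // p ∈ primesLE m}, ((f p : ℤ) : ℝ) * (t p : ℝ) = 0 := by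
        have := congrArg (fun z : ℤ => (z : ℝ)) hzero
        push_cast at this
        exact this
      rw [hl, Finset.mul_sum]
      simp only [sub_mul]
      rw [Finset.sum_sub_distrib, h2, sub_zero]
      exact Finset.sum_congr rfl fun _ _ => by ring
    rw [← abs_of_pos hR0, ← abs_mul, h1]
    calc |∑ p : {p // p ∈ primesLE m},
        (R * Real.log (gg p) - (f p : ℤ)) * (t p : ℝ)|
        ≤ ∑ p : {p // p ∈ primesLE m},
          |(R * Real.log (gg p) - (f p : ℤ)) * (t p : ℝ)| :=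
          Finset.abs_sum_le_sum_abs _ _
      _ ≤ ∑ p : {p // p ∈ primesLE m}, (|(t p : ℝ)| * Real.log (gg p)) / Real.log 2 := by
          refine Finset.sum_le_sum fun i _ => ?_
          rw [abs_mul]
          have h3 : |R * Real.log (gg i) - (f i : ℤ)| ≤ 1 := by
            rw [abs_of_nonneg (by linarith [Int.floor_le (R * Real.log (gg i))])]
            linarith [Int.lt_floor_add_one (R * Real.log (gg i))]
          have h4 : |(t i : ℝ)| ≤ |(t i : ℝ)| * Real.log (gg i) / Real.log 2 := by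
            rw [le_div_iff₀ hl2]
            exact mul_le_mul_of_nonneg_left (hlogp i) (abs_nonneg _)
          have := mul_le_mul_of_nonneg_right h3 (abs_nonneg (t i : ℝ))
          linarith
      _ = (∑ p : {p // p ∈ primesLE m}, |(t p : ℝ)| * Real.log (gg p)) / Real.log 2 := by
          rw [Finset.sum_div]
      _ ≤ lam / Real.log 2 := by gcongr
  have hl1 : |l| ≤ 1 := by
    rw [hR] at hRl
    rw [le_div_iff₀ (by positivity)] at hRl
    have h5 : M / (lam + 1) * |l| * Real.log 2 * (lam + 1) ≤ lam * (lam + 1) :=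
      mul_le_mul_of_nonneg_right hRl (by positivity)
    have h6 : M / (lam + 1) * |l| * Real.log 2 * (lam + 1) = |l| * (M * Real.log 2) := by
      field_simp
    rw [h6] at h5
    have h7 : |l| * (M * Real.log 2) ≤ 1 * (M * Real.log 2) := by linarith
    exact le_of_mul_le_mul_right h7 (by positivity)
  -- the two numbers
  set A := Ap t with hA
  set B := An t with hB
  have hA0 : 0 < A := PP_pos _
  have hB0 : 0 < B := PP_pos _
  have hAB : A ≠ B := by
    intro h
    have h1 := PP_inj _ _ h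
    apply ht0
    funext p
    have h2 := congrFun h1 p
    simp only [Pi.zero_apply]
    omega
  have hlA : Real.log A = ∑ p : {p // p ∈ primesLE m}, ((t p).toNat : ℝ) * Real.log (gg p) := log_PP _
  have hlB : Real.log B = ∑ p : {p // p ∈ primesLE m}, ((-t p).toNat : ℝ) * Real.log (gg p) := log_PP _
  have hsub : Real.log A - Real.log B = l := by
    rw [hl, hlA, hlB, ← Finset.sum_sub_distrib]
    refine Finset.sum_congr rfl fun p _ => ?_
    rw [← sub_mul]
    congr 1
    have : (t p) = ((t p).toNat : ℤ) - (-t p).toNat := by omega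
    exact_mod_cast (congrArg (fun z : ℤ => (z : ℝ)) this).symm
  have hadd : Real.log A + Real.log B ≤ lam := by
    refine le_trans (le_of_eq ?_) hsum
    rw [hlA, hlB, ← Finset.sum_add_distrib]
    refine Finset.sum_congr rfl fun p _ => ?_
    rw [← add_mul]
    congr 1
    have : |t p| = ((t p).toNat : ℤ) + (-t p).toNat := by
      rcases abs_cases (t p) with h | h <;> omega
    exact_mod_cast (congrArg (fun z : ℤ => (z : ℝ)) this).symm
  rw [abs_le] at hl1
  have hmA := PP_mod (m := m) (by omega) (fun p => (t p).toNat)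
  have hmB := PP_mod (m := m) (by omega) (fun p => (-t p).toNat)
  have h16A : A % 16 = 1 ∨ 16 ∣ A := by
    by_cases h : (t ⟨2, mem_primesLE.mpr ⟨by omega, Nat.prime_two⟩⟩).toNat = 0
    · exact Or.inl (hmA.1 h)
    · exact Or.inr (hmA.2 h)
  have h16B : B % 16 = 1 ∨ 16 ∣ B := by
    by_cases h : (-t ⟨2, mem_primesLE.mpr ⟨by omega, Nat.prime_two⟩⟩).toNat = 0
    · exact Or.inl (hmB.1 h)
    · exact Or.inr (hmB.2 h)
  have h16 : A % 16 = 1 ∨ B % 16 = 1 := by
    by_cases h : (t ⟨2, mem_primesLE.mpr ⟨by omega, Nat.prime_two⟩⟩).toNat = 0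
    · exact Or.inl (hmA.1 h)
    · refine Or.inr (hmB.1 ?_)
      omega
  have hpA : ∀ r : ℕ, r.Prime → r ∣ A → r ≤ m := fun r hr h => PP_primeFactors hm _ hr h
  have hpB : ∀ r : ℕ, r.Prime → r ∣ B → r ≤ m := fun r hr h => PP_primeFactors hm _ hr h
  have fin : ∀ x y : ℕ, 0 < x → x < y → Real.log y - Real.log x ≤ 1 →
      Real.log y + Real.log x ≤ lam →
      (∃ a b c : ℕ, IsABCTriple a b c ∧ 16 ∣ a * b * c ∧ q ^ k ∣ a ∧ c ≤ y ∧
        (c : ℝ) / b = (y : ℝ) / x ∧ b.primeFactors ⊆ primesLE m ∧ c.primeFactors ⊆ primesLE m) →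
      ∃ a b c : ℕ, IsABCTriple a b c ∧ 16 ∣ a * b * c ∧ q ^ k ∣ a ∧
      Real.log c ≤ (lam + 1) / 2 ∧ Real.log c - 1 ≤ Real.log b ∧
      b.primeFactors ⊆ primesLE m ∧ c.primeFactors ⊆ primesLE m ∧ c * x = b * y := by
    intro x y hx hxy h1 h2 ⟨a, b, c, habc, h3, h4, h5, h6, h7, h8⟩
    have hc0 : (0 : ℝ) < c := by exact_mod_cast habc.2.2.1
    have hb0 : (0 : ℝ) < b := by exact_mod_cast habc.2.1
    have hx0 : (0 : ℝ) < x := by exact_mod_cast hx
    have hy0 : (0 : ℝ) < y := by exact_mod_cast hx.trans hxy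
    refine ⟨a, b, c, habc, h3, h4, ?_, ?_, h7, h8, ?_⟩
    · have : Real.log c ≤ Real.log y := Real.log_le_log hc0 (by exact_mod_cast h5)
      linarith
    · have := congrArg Real.log h6
      rw [Real.log_div hc0.ne' hb0.ne', Real.log_div hy0.ne' hx0.ne'] at this
      linarith
    · rw [div_eq_div_iff hb0.ne' hx0.ne'] at h6
      have h9 : (c : ℝ) * x = b * y := by linarith
      exact_mod_cast h9
  rcases lt_or_gt_of_ne hAB with h | h
  · obtain ⟨a, b, c, e1, e2, e3, e4, e5, e6, e7, e8⟩ :=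
      fin A B hA0 h (by linarith) (by linarith) (reduce hq hqm hA0 h hpA hpB ⟨h16A, h16B, h16⟩
        (by rw [dvd_sub_comm]; exact hABd))
    exact ⟨a, b, c, e1, e2, e3, e4, e5, e6, e7, Or.inr e8⟩
  · obtain ⟨a, b, c, e1, e2, e3, e4, e5, e6, e7, e8⟩ :=
      fin B A hB0 h (by linarith) (by linarith) (reduce hq hqm hB0 h hpB hpA
        ⟨h16B, h16A, h16.symm⟩ hABd)
    exact ⟨a, b, c, e1, e2, e3, e4, e5, e6, e7, Or.inl e8⟩

end

end Pool.Agent.R417.MV
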