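import Pool.Agent.W16.GT.Main
import Pool.Agent.W270.Szp.Final
import Pool.Agent.R417.MV.Cut

open Finset Nat Filter Topology

namespace Pool.Agent.R417.MV

open Pool.Agent.H390R2 (rad IsABCTriple II)
open Pool.Agent.W270.Szp
open Pool.Agent.W16.GT (mm mm_atTop log_mm height_bound count_limit choose_a rho_atTop)

theorem many_frey {K K' : ℝ} (hK : 0 < K) (hK' : 0 < K')
    (h : K + K' < √(8 / 9) * Real.exp (59 / 30)) :
    ∀ᶠ Y : ℝ in atTop, ∃ (T : Finset (ℕ × ℕ × ℕ)) (m q : ℕ), q.Prime ∧ m < q ∧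
      Real.exp (K' * √Y / Real.log Y) ≤ T.card ∧
      ∀ t ∈ T, IsABCTriple t.1 t.2.1 t.2.2 ∧ 16 ∣ t.1 * t.2.1 * t.2.2 ∧ q ∣ t.1 ∧
        t.2.1.primeFactors ⊆ primesLE m ∧ t.2.2.primeFactors ⊆ primesLE m ∧
        Real.log t.2.2 ≤ Y ∧
        K * √Y / Real.log Y + 1 < (Real.log t.1 + Real.log t.2.1 + Real.log t.2.2) / 3 -
            Real.log (rad (t.1 * t.2.1 * t.2.2)) := by
  have hT0 : 0 < K + K' := by positivity
  obtain ⟨a, ε, ha0, haT, hε, hε1, hopt⟩ := choose_a hT0 h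
  set T : ℝ := K + K' with hT
  set g : ℝ := 2 * K / T with hg
  set h' : ℝ := 2 * K' / T with hh
  have hg0 : 0 < g := by positivity
  have hh0 : 0 < h' := by positivity
  have hgh : g + h' = 2 := by
    rw [hg, hh, ← add_div, ← mul_add, ← hT]; field_simp
  set q : ℝ := (T / 2 + 2 * a) / 2 with hq
  have hq1 : T / 2 < q := by rw [hq]; linarith
  have hq2 : q < 2 * a := by rw [hq]; linarith
  set r : ℝ := 2 * q / T - 1 with hr
  have hr0 : 0 < r := by
    have : 1 < 2 * q / T := by rw [lt_div_iff₀ hT0]; linarith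
    linarith
  have e1 := (mm_atTop ha0).eventually (cut_frey hε hε1 hg0 hh0 hgh)
  have e2 := (mm_atTop ha0).eventually (height_bound hε hε1)
  have e3 := (count_limit ha0).eventually (lt_mem_nhds hq2)
  have e4 := (log_mm ha0).eventually (gt_mem_nhds (show (1 / 2 : ℝ) < 1 by norm_num))
  have e5 := rho_atTop (10 / (K * r))
  have e6 := rho_atTop (1 / (K' * r))
  filter_upwards [e1, e2, e3, e4, e5, e6, eventually_ge_atTop (Real.exp 1)] with
    Y h1 h2 h3 h4 h5 h6 h7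
  have hY0 : 0 < Y := lt_of_lt_of_le (Real.exp_pos 1) h7
  have hlY : 1 ≤ Real.log Y := by rw [Real.le_log_iff_exp_le hY0]; exact h7
  have hlY0 : 0 < Real.log Y := by linarith
  have hsY : 0 < √Y := Real.sqrt_pos.mpr hY0
  set ρ : ℝ := √Y / Real.log Y with hρ
  have hρ0 : 0 < ρ := by positivity
  set m := mm a Y with hm
  rw [lt_div_iff₀ hρ0] at h3
  rw [div_lt_iff₀ hlY0, one_mul] at h4
  have hm2 : (m : ℝ) ^ 2 ≤ a ^ 2 * Y := by
    have h8 : (m : ℝ) ≤ a * √Y := Nat.floor_le (by positivity)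
    calc (m : ℝ) ^ 2 ≤ (a * √Y) ^ 2 := by gcongr
      _ = a ^ 2 * Y := by rw [mul_pow, Real.sq_sqrt hY0.le]
  obtain ⟨S, p, hp, hmp, hS1, hS2⟩ := h1
  refine ⟨S, m, p, hp, hmp, ?_, ?_⟩
  · have h9 : K' * √Y / Real.log Y + Real.log 2 ≤ h' * Nat.primeCounting m := by
      have h10 : h' * (q * ρ) ≤ h' * Nat.primeCounting m := by gcongr
      have h11 : h' * (q * ρ) = K' * ρ + K' * r * ρ := by
        rw [hh, hr]; field_simp; ring
      have h12 : 1 ≤ K' * r * ρ := by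
        have h13 : K' * r * (1 / (K' * r) * Real.log Y) ≤ K' * r * ρ := by gcongr
        have h14 : K' * r * (1 / (K' * r) * Real.log Y) = Real.log Y := by field_simp
        linarith
      have h15 : K' * √Y / Real.log Y = K' * ρ := by rw [hρ]; ring
      rw [h15]
      linarith [Real.log_two_lt_d9]
    have h16 := Real.exp_le_exp.mpr h9
    rw [Real.exp_add, Real.exp_log two_pos] at h16
    linarith
  · intro t ht
    obtain ⟨habc, hab, hq5, hb5, hc5, hc, hrad⟩ := hS2 t ht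
    refine ⟨habc, hab, hq5, hb5, hc5, ?_, ?_⟩
    · refine hc.trans ?_
      calc (1 + 2 * ε) * (18 * Real.exp (3 * ε) * Real.exp (-(44 / 15)) *
          (Nat.primeCounting m * m * Real.log m *
            Real.exp (-(II m / Nat.primeCounting m))))
          ≤ (1 + 2 * ε) * (18 * Real.exp (3 * ε) * Real.exp (-(44 / 15)) *
          ((1 + ε) * Real.exp (-(1 - 2 * ε)) * (m : ℝ) ^ 2)) := by gcongr
        _ ≤ (1 + 2 * ε) * (18 * Real.exp (3 * ε) * Real.exp (-(44 / 15)) *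
          ((1 + ε) * Real.exp (-(1 - 2 * ε)) * (a ^ 2 * Y))) := by gcongr
        _ = ((1 + 2 * ε) * (18 * Real.exp (3 * ε) * Real.exp (-(44 / 15)) *
          ((1 + ε) * Real.exp (-(1 - 2 * ε)))) * a ^ 2) * Y := by ring
        _ ≤ 1 * Y := by gcongr
        _ = Y := one_mul Y
    · refine lt_of_lt_of_le ?_ hrad
      have h10 : g * (q * ρ) ≤ g * Nat.primeCounting m := by gcongr
      have h11 : g * (q * ρ) = K * ρ + K * r * ρ := by
        rw [hg, hr]; field_simp; ring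
      have h12 : 10 * Real.log Y ≤ K * r * ρ := by
        have h13 : K * r * (10 / (K * r) * Real.log Y) ≤ K * r * ρ := by gcongr
        have h14 : K * r * (10 / (K * r) * Real.log Y) = 10 * Real.log Y := by field_simp
        linarith
      have h15 : K * √Y / Real.log Y = K * ρ := by rw [hρ]; ring
      rw [h15]
      linarith

lemma choose_st' {u w : ℤ} (hu : u % 2 = 1) (hw : (16 : ℤ) ∣ w) (h : IsCoprime u w) :
    ∃ s t : ℤ, IsCoprime (4 * s - 1) (16 * t) ∧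
      ((4 * s - 1) * t * (4 * s - 1 + 16 * t)).natAbs * 16 = (u * w * (u + w)).natAbs ∧
      (4 * s - 1) ^ 2 + (4 * s - 1) * (16 * t) + (16 * t) ^ 2 = u ^ 2 + u * w + w ^ 2 := by
  obtain ⟨t, ht⟩ := hw
  rcases (show u % 4 = 3 ∨ u % 4 = 1 by omega) with h4 | h4
  · refine ⟨(u + 1) / 4, t, ?_, ?_, ?_⟩
    · have : 4 * ((u + 1) / 4) - 1 = u := by omega
      rw [this, ← ht]; exact h
    · have : 4 * ((u + 1) / 4) - 1 = u := by omega
      rw [this, ht, show (16 : ℕ) = (16 : ℤ).natAbs by rfl, ← Int.natAbs_mul]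
      congr 1
      ring
    · have : 4 * ((u + 1) / 4) - 1 = u := by omega
      rw [this, ht]
  · refine ⟨(-u + 1) / 4, -t, ?_, ?_, ?_⟩
    · have : 4 * ((-u + 1) / 4) - 1 = -u := by omega
      rw [this, mul_neg, ← ht]; exact h.neg_neg
    · have : 4 * ((-u + 1) / 4) - 1 = -u := by omega
      rw [this, ht, show (16 : ℕ) = (16 : ℤ).natAbs by rfl, ← Int.natAbs_mul, ← Int.natAbs_neg]
      congr 1
      ring
    · have : 4 * ((-u + 1) / 4) - 1 = -u := by omega
      rw [this, ht]; ring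

lemma exists_st' {a b c : ℕ} (h : IsABCTriple a b c) (h16 : 16 ∣ a * b * c) :
    ∃ s t : ℤ, IsCoprime (4 * s - 1) (16 * t) ∧
      ((4 * s - 1) * t * (4 * s - 1 + 16 * t)).natAbs * 16 = a * b * c ∧
      (4 * s - 1) ^ 2 + (4 * s - 1) * (16 * t) + (16 * t) ^ 2 = (c : ℤ) ^ 2 - a * b := by
  obtain ⟨ha, hb, hc, hsum, hab, hac, hbc⟩ := h
  have key : ∀ x y z : ℕ, 2 ∣ x → Nat.Coprime x y → Nat.Coprime x z → 16 ∣ x * y * z →
      16 ∣ x ∧ y % 2 = 1 ∧ z % 2 = 1 := by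
    intro x y z h2 hxy hxz h16
    have hy : y % 2 = 1 := by
      by_contra hcon
      have : 2 ∣ Nat.gcd x y := Nat.dvd_gcd h2 (by omega)
      rw [hxy] at this; omega
    have hz : z % 2 = 1 := by
      by_contra hcon
      have : 2 ∣ Nat.gcd x z := Nat.dvd_gcd h2 (by omega)
      rw [hxz] at this; omega
    refine ⟨?_, hy, hz⟩
    have h3 : Nat.Coprime 16 z := by
      have : Nat.Coprime (2 ^ 4) z :=
        Nat.Coprime.pow_left _ (Nat.coprime_two_left.mpr (Nat.odd_iff.mpr hz))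
      simpa using this
    have h4 : Nat.Coprime 16 y := by
      have : Nat.Coprime (2 ^ 4) y :=
        Nat.Coprime.pow_left _ (Nat.coprime_two_left.mpr (Nat.odd_iff.mpr hy))
      simpa using this
    exact h4.dvd_of_dvd_mul_right (h3.dvd_of_dvd_mul_right h16)
  have h2 : 2 ∣ a * b * c := (by norm_num : 2 ∣ 16).trans h16
  have hc' : (c : ℤ) = a + b := by exact_mod_cast hsum.symm
  rcases (Nat.Prime.dvd_mul Nat.prime_two).mp h2 with h2 | h2
  · rcases (Nat.Prime.dvd_mul Nat.prime_two).mp h2 with h2 | h2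
    · obtain ⟨k1, k2, k3⟩ := key a b c h2 hab hac h16
      obtain ⟨s, t, hst, h, h5⟩ := choose_st' (u := b) (w := a) (by omega) (by exact_mod_cast k1)
        (Nat.isCoprime_iff_coprime.mpr hab.symm)
      refine ⟨s, t, hst, ?_, ?_⟩
      · rw [h]
        have : ((b : ℤ) * a * (b + a)) = ((a * b * c : ℕ) : ℤ) := by
          push_cast; rw [hc']; ring
        rw [this, Int.natAbs_natCast]
      · rw [h5, hc']; ring
    · obtain ⟨k1, k2, k3⟩ := key b a c h2 hab.symm hbc (by rwa [mul_comm b a])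
      obtain ⟨s, t, hst, h, h5⟩ := choose_st' (u := a) (w := b) (by omega) (by exact_mod_cast k1)
        (Nat.isCoprime_iff_coprime.mpr hab)
      refine ⟨s, t, hst, ?_, ?_⟩
      · rw [h]
        have : ((a : ℤ) * b * (a + b)) = ((a * b * c : ℕ) : ℤ) := by
          push_cast; rw [hc']
        rw [this, Int.natAbs_natCast]
      · rw [h5, hc']; ring
  · obtain ⟨k1, k2, k3⟩ := key c a b h2 hac.symm hbc.symm (by
      rwa [show c * a * b = a * b * c by ring])
    obtain ⟨s, t, hst, h, h5⟩ := choose_st' (u := a) (w := -c) (by omega)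
      (by rw [dvd_neg]; exact_mod_cast k1)
      (Nat.isCoprime_iff_coprime.mpr hac).neg_right
    refine ⟨s, t, hst, ?_, ?_⟩
    · rw [h]
      have : ((a : ℤ) * (-c) * (a + -c)) = ((a * b * c : ℕ) : ℤ) := by
        push_cast; rw [hc']; ring
      rw [this, Int.natAbs_natCast]
    · rw [h5, hc']; ring

/-- the triple is recovered from the two invariants -/
lemma recover {m q a b c a' b' c' : ℕ} (hq : q.Prime) (hmq : m < q) (h : IsABCTriple a b c)
    (h' : IsABCTriple a' b' c') (hqa : q ∣ a)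
    (hb' : b'.primeFactors ⊆ primesLE m)
    (h1 : a * b * c = a' * b' * c') (h2 : (c : ℤ) ^ 2 - a * b = (c' : ℤ) ^ 2 - a' * b') :
    a = a' ∧ b = b' ∧ c = c' := by
  obtain ⟨ha0, hb0, hc0, hsum, -, -, -⟩ := h
  obtain ⟨ha0', hb0', hc0', hsum', -, -, -⟩ := h'
  have e1 : (a : ℤ) * b * c = a' * b' * c' := by exact_mod_cast h1
  have hs : (c : ℤ) = a + b := by exact_mod_cast hsum.symm
  have hs' : (c' : ℤ) = a' + b' := by exact_mod_cast hsum'.symm
  have ha : (0 : ℤ) < a := by exact_mod_cast ha0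
  have hb : (0 : ℤ) < b := by exact_mod_cast hb0
  have ha' : (0 : ℤ) < a' := by exact_mod_cast ha0'
  have hb'' : (0 : ℤ) < b' := by exact_mod_cast hb0'
  have hc' : (0 : ℤ) < c' := by exact_mod_cast hc0'
  have hroot : ((c' : ℤ) - c) * ((c' + a) * (c' + b)) = 0 := by
    have : ((c' : ℤ) - c) * ((c' + a) * (c' + b)) =
        c' * ((c' : ℤ) ^ 2 - a' * b') - c' * ((c : ℤ) ^ 2 - a * b) +
        (a' * b' * c' - a * b * c) := by
      rw [hs]; ring
    rw [this, h2, e1]; ring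
  have hcc : (c' : ℤ) = c := by
    rcases mul_eq_zero.mp hroot with h | h
    · linarith
    · exfalso
      have : 0 < ((c' : ℤ) + a) * (c' + b) := by positivity
      omega
  have hcc' : c' = c := by exact_mod_cast hcc
  have hab : (a : ℤ) * b = a' * b' := by
    rw [hcc] at h2; linarith
  have hroot2 : ((a : ℤ) - a') * (a - b') = 0 := by
    have : (b : ℤ) = a' + b' - a := by linarith
    rw [this] at hab
    linear_combination -hab
  rcases mul_eq_zero.mp hroot2 with h | h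
  · have : a = a' := by
      have : (a : ℤ) = a' := by linarith
      exact_mod_cast this
    exact ⟨this, by omega, hcc'.symm⟩
  · exfalso
    have : a = b' := by
      have : (a : ℤ) = b' := by linarith
      exact_mod_cast this
    rw [this] at hqa
    have h3 := hb' (Nat.mem_primeFactors.mpr ⟨hq, hqa, hb0'.ne'⟩)
    have := le_of_mem_primesLE h3
    omega

/-- equal `j`-invariants and coprime invariants -/
lemma j_eq {x y d e : ℤ} (hxd : IsCoprime x d) (hye : IsCoprime y e) (hd : 0 < d) (he : 0 < e)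
    (h : x ^ 3 * e = y ^ 3 * d) : x = y ∧ d = e := by
  have h1 : d ∣ e := (hxd.symm.pow_right (n := 3)).dvd_of_dvd_mul_left ⟨y ^ 3, by rw [h]; ring⟩
  have h2 : e ∣ d := (hye.symm.pow_right (n := 3)).dvd_of_dvd_mul_left ⟨x ^ 3, by rw [← h]; ring⟩
  have h3 : d = e := le_antisymm (Int.le_of_dvd he h1) (Int.le_of_dvd hd h2)
  refine ⟨?_, h3⟩
  rw [h3] at h
  have h4 := mul_right_cancel₀ he.ne' h
  exact (Odd.strictMono_pow (⟨1, rfl⟩ : Odd 3)).injective h4

/-- one curve from one triple -/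
lemma curve_of {a b c : ℕ} {K Y : ℝ} (hK : 0 < K) (hY : Real.exp 1 ≤ Y) (habc : IsABCTriple a b c)
    (h16 : 16 ∣ a * b * c) (hcY : Real.log c ≤ Y)
    (hlt : K * √Y / Real.log Y + 1 < (Real.log a + Real.log b + Real.log c) / 3 -
            Real.log (rad (a * b * c))) :
    ∃ W : WeierstrassCurve ℤ, 0 < W.Δ ∧ IsCoprime W.c₄ W.Δ ∧
      (∃ r₁ r₂ r₃ : ℚ, ∀ x : ℚ,
        4 * x ^ 3 + W.b₂ * x ^ 2 + 2 * W.b₄ * x + W.b₆ = 4 * (x - r₁) * (x - r₂) * (x - r₃)) ∧
      (cond W : ℝ) ≤ Real.exp Y ∧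
      (cond W : ℝ) ^ 6 * Real.exp (6 * K * √Y / Real.log Y) < (W.Δ : ℝ) ∧
      (W.Δ : ℝ) ≤ Real.exp Y ^ 6 ∧
      W.c₄ = (c : ℤ) ^ 2 - a * b ∧ 256 * W.Δ = ((a * b * c : ℕ) : ℤ) ^ 2 := by
  obtain ⟨s, t, hst, hprod, hc4⟩ := exists_st' habc h16
  obtain ⟨ha, hb, hc, hsum, hab, hac, hbc⟩ := id habc
  set W := frey s t with hW
  set D : ℤ := (4 * s - 1) * t * (4 * s - 1 + 16 * t) with hD
  have hΔ : W.Δ = D ^ 2 := frey_disc s t
  have habc0 : a * b * c ≠ 0 := by positivity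
  have hD0 : D ≠ 0 := by
    intro h0
    rw [h0] at hprod
    simp at hprod
    omega
  have hΔ0 : 0 < W.Δ := by rw [hΔ]; positivity
  have ha' : (0 : ℝ) < a := by exact_mod_cast ha
  have hb' : (0 : ℝ) < b := by exact_mod_cast hb
  have hc' : (0 : ℝ) < c := by exact_mod_cast hc
  have hcpos : 0 < cond W := Finset.prod_pos fun p hp => (Nat.prime_of_mem_primeFactors hp).pos
  have hN0 : (0 : ℝ) < cond W := by exact_mod_cast hcpos
  -- the conductor is at most the radical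
  have hNrad : cond W ≤ rad (a * b * c) := by
    unfold Pool.Agent.W270.Szp.cond rad
    refine Finset.prod_le_prod_of_subset_of_one_le' ?_ fun p hp _ =>
      (Nat.prime_of_mem_primeFactors hp).one_le
    intro p hp
    have hp1 := Nat.prime_of_mem_primeFactors hp
    have hp2 := Nat.dvd_of_mem_primeFactors hp
    rw [hΔ, Int.natAbs_pow] at hp2
    have hp3 := hp1.dvd_of_dvd_pow hp2
    refine Nat.mem_primeFactors.mpr ⟨hp1, ?_, habc0⟩
    rw [← hprod]
    exact hp3.mul_right _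
  have hNrad' : Real.log (cond W) ≤ Real.log (rad (a * b * c)) :=
    Real.log_le_log hN0 (by exact_mod_cast hNrad)
  have hac' : Real.log a ≤ Real.log c := Real.log_le_log ha' (by exact_mod_cast (by omega : a ≤ c))
  have hbc' : Real.log b ≤ Real.log c := Real.log_le_log hb' (by exact_mod_cast (by omega : b ≤ c))
  have hY0 : 0 < Y := lt_of_lt_of_le (Real.exp_pos 1) hY
  have hlY : 1 ≤ Real.log Y := by rw [Real.le_log_iff_exp_le hY0]; exact hY
  have hll : 0 ≤ K * √Y / Real.log Y := by positivity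
  have hD' : (W.Δ : ℝ) = ((a * b * c : ℝ) / 16) ^ 2 := by
    rw [hΔ]
    push_cast
    rw [← sq_abs]
    congr 1
    have : ((D.natAbs * 16 : ℕ) : ℝ) = ((a * b * c : ℕ) : ℝ) := by rw [hprod]
    have h5 : (D.natAbs : ℝ) = |(D : ℝ)| := by rw [Nat.cast_natAbs, Int.cast_abs]
    rw [Nat.cast_mul, h5] at this
    push_cast at this
    linarith
  have hlogΔ : Real.log (W.Δ : ℝ) = 2 * (Real.log a + Real.log b + Real.log c - Real.log 16) := by
    rw [hD', Real.log_pow, Real.log_div (by positivity) (by norm_num), Real.log_mul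
      (by positivity) hc'.ne', Real.log_mul ha'.ne' hb'.ne']
    push_cast; ring
  have h16' : Real.log 16 ≤ 3 := by
    have : (16 : ℝ) = 2 ^ 4 := by norm_num
    rw [this, Real.log_pow]
    have := Real.log_two_lt_d9
    push_cast
    linarith
  have h160 : 0 ≤ Real.log 16 := Real.log_nonneg (by norm_num)
  have hΔR : (0 : ℝ) < (W.Δ : ℝ) := by exact_mod_cast hΔ0
  refine ⟨W, hΔ0, frey_coprime hst, frey_torsion s t, ?_, ?_, ?_, ?_, ?_⟩
  · rw [← Real.log_le_iff_le_exp hN0]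
    linarith
  · rw [← Real.log_lt_log_iff (by positivity) hΔR, hlogΔ, Real.log_mul
      (by positivity) (Real.exp_pos _).ne', Real.log_pow, Real.log_exp]
    have e : 6 * K * √Y / Real.log Y = 6 * (K * √Y / Real.log Y) := by ring
    rw [e]
    push_cast
    linarith
  · rw [← Real.exp_nat_mul, ← Real.log_le_iff_le_exp hΔR, hlogΔ]
    push_cast
    linarith
  · rw [hW, frey_c4, hc4]
  · rw [hΔ]
    have h5 : D ^ 2 = (D.natAbs : ℤ) ^ 2 := (Int.natAbs_sq D).symm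
    rw [h5, ← hprod]
    push_cast
    ring

open Classical in
theorem main (K K' : ℝ) (hK : 0 < K) (hK' : 0 < K')
    (h : K / 6 + K' < √(8 / 9) * Real.exp (59 / 30)) :
    ∀ᶠ X : ℝ in atTop, ∃ T : Finset (WeierstrassCurve ℤ),
      Real.exp (K' * √(Real.log X) / Real.log (Real.log X)) ≤ T.card ∧
      (∀ W ∈ T, 0 < W.Δ ∧ IsCoprime W.c₄ W.Δ ∧
        (∃ r₁ r₂ r₃ : ℚ, ∀ x : ℚ,
          4 * x ^ 3 + W.b₂ * x ^ 2 + 2 * W.b₄ * x + W.b₆ = 4 * (x - r₁) * (x - r₂) * (x - r₃)) ∧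
        (cond W : ℝ) ≤ X ∧ (W.Δ : ℝ) ≤ X ^ 6 ∧
        (cond W : ℝ) ^ 6 * Real.exp (K * √(Real.log X) / Real.log (Real.log X)) < (W.Δ : ℝ)) ∧
      (∀ W ∈ T, ∀ W' ∈ T, W.c₄ ^ 3 * W'.Δ = W'.c₄ ^ 3 * W.Δ → W = W') := by
  have hK6 : 0 < K / 6 := by positivity
  have e1 := many_frey hK6 hK' h
  have e2 : ∀ᶠ Y : ℝ in atTop, Real.exp 1 ≤ Y := eventually_ge_atTop _
  filter_upwards [Real.tendsto_log_atTop.eventually (e1.and e2), eventually_gt_atTop 0] with
    X hX hX0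
  obtain ⟨⟨T, m, q, hq, hmq, hT1, hT2⟩, hY⟩ := hX
  have hXe : Real.exp (Real.log X) = X := Real.exp_log hX0
  have hex : ∀ t : {t // t ∈ T}, ∃ W : WeierstrassCurve ℤ, 0 < W.Δ ∧ IsCoprime W.c₄ W.Δ ∧
      (∃ r₁ r₂ r₃ : ℚ, ∀ x : ℚ,
        4 * x ^ 3 + W.b₂ * x ^ 2 + 2 * W.b₄ * x + W.b₆ = 4 * (x - r₁) * (x - r₂) * (x - r₃)) ∧
      (cond W : ℝ) ≤ Real.exp (Real.log X) ∧
      (cond W : ℝ) ^ 6 * Real.exp (6 * (K / 6) * √(Real.log X) / Real.log (Real.log X)) <
        (W.Δ : ℝ) ∧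
      (W.Δ : ℝ) ≤ Real.exp (Real.log X) ^ 6 ∧
      W.c₄ = (t.1.2.2 : ℤ) ^ 2 - t.1.1 * t.1.2.1 ∧
      256 * W.Δ = ((t.1.1 * t.1.2.1 * t.1.2.2 : ℕ) : ℤ) ^ 2 := by
    rintro ⟨t, ht⟩
    obtain ⟨h1, h2, h3, h4, h5, h6, h7⟩ := hT2 t ht
    exact curve_of hK6 hY h1 h2 h6 h7
  choose F hF using hex
  have hinj : ∀ t t' : {t // t ∈ T}, (F t).c₄ ^ 3 * (F t').Δ = (F t').c₄ ^ 3 * (F t).Δ →
      t = t' := by
    intro t t' hj
    obtain ⟨p1, p2, -, -, -, -, p7, p8⟩ := hF t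
    obtain ⟨r1, r2, -, -, -, -, r7, r8⟩ := hF t'
    obtain ⟨hc, hd⟩ := j_eq p2 r2 p1 r1 hj
    obtain ⟨h1, h2, h3, h4, h5, h6, h7⟩ := hT2 t.1 t.2
    obtain ⟨h1', h2', h3', h4', h5', h6', h7'⟩ := hT2 t'.1 t'.2
    rw [hd] at p8
    rw [p8] at r8
    rw [p7, r7] at hc
    have hprod : t.1.1 * t.1.2.1 * t.1.2.2 = t'.1.1 * t'.1.2.1 * t'.1.2.2 := by
      have : (t.1.1 * t.1.2.1 * t.1.2.2) ^ 2 = (t'.1.1 * t'.1.2.1 * t'.1.2.2) ^ 2 := by
        exact_mod_cast r8
      exact (Nat.pow_left_injective (n := 2) (by norm_num)) this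
    obtain ⟨a1, a2, a3⟩ := recover hq hmq h1 h1' h3 h4' hprod hc
    exact Subtype.ext (Prod.ext a1 (Prod.ext a2 a3))
  refine ⟨Finset.univ.image F, ?_, ?_, ?_⟩
  · have hFinj : Function.Injective F := by
      intro t t' htt
      exact hinj t t' (by rw [htt])
    rw [Finset.card_image_of_injective _ hFinj, Finset.card_univ, Fintype.card_coe]
    exact hT1
  · intro W hW
    obtain ⟨t, _, rfl⟩ := Finset.mem_image.mp hW
    obtain ⟨p1, p2, p3, p4, p5, p6, -, -⟩ := hF t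
    rw [hXe] at p4 p6
    have e6 : 6 * (K / 6) = K := by ring
    rw [e6] at p5
    exact ⟨p1, p2, p3, p4, p6, p5⟩
  · intro W hW W' hW' hj
    obtain ⟨t, _, rfl⟩ := Finset.mem_image.mp hW
    obtain ⟨t', _, rfl⟩ := Finset.mem_image.mp hW'
    rw [hinj t t' hj]

end Pool.Agent.R417.MV
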